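import Pool.Agent.MP_c1b6d0_co.V2.All

open Pool.Agent.MP_c1b6d0_co.H73.V2

/-- Up to `η n`, a sequence `d` forces a spanning triangulation exactly when it is not dominated by
the degrees of two cliques `A`, `B` joined to an independent set `C`. -/
theorem Pool.Agent.Results.MP_c1b6d0_co.Chvatal.result :
    ∃ K : ℕ, ∀ η : ℝ, 0 < η → ∀ n : ℕ, (2 + 1 / η) ^ K ≤ (n : ℝ) → ∀ d : Fin n → ℕ,
      (¬ Barrier d (η * n) → Forces d) ∧ (Forces d → ¬ Barrier d 0) :=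
  ⟨50 * 10000, fun η hη n hn d => ⟨forces_of tri_of_ctx η hη n hn d,
    not_barrier_of_forces conv (three_le hη (by norm_num) hn) d⟩⟩

/-- Q1 of the problem file is the case of error `η n / 4`. -/
theorem Pool.Agent.Results.MP_c1b6d0_co.Chvatal.q1 (η : ℝ) (hη : 0 < η) :
    ∃ n₀ : ℕ, ∀ n ≥ n₀, ∀ G : SimpleGraph (Fin n), (Monotone fun i => (G.neighborSet i).ncard) →
      (∀ i : Fin n, ((i : ℕ) + 1 : ℝ) ≤ n / 3 →
        n / 3 + ((i : ℕ) + 1) + η * n ≤ ((G.neighborSet i).ncard : ℝ)) → HasTri G := by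
  obtain ⟨K, hK⟩ := Pool.Agent.Results.MP_c1b6d0_co.Chvatal.result
  refine ⟨⌈(2 + 1 / (η / 4)) ^ K⌉₊ + ⌈4 / η⌉₊ + 3, fun n hn G hm hs => ?_⟩
  have h1 : (2 + 1 / (η / 4)) ^ K ≤ (n : ℝ) := Nat.ceil_le.1 (by omega)
  have h2 : 4 / η ≤ (n : ℝ) := Nat.ceil_le.1 (by omega)
  rw [div_le_iff₀ hη] at h2
  refine (hK (η / 4) (by positivity) n h1 _).1
    (not_barrier_of_star hm _ (by linarith) (by omega) fun i hi => ?_) G fun v => le_rfl
  linarith [hs i hi]
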